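import Pool.Agent.TH658.Sos.Im
import Pool.Agent.W185.SRG.Defs
import Pool.Agent.W879.GW.WL

/-!
# The Weisfeiler-Leman method and locally consistent affine systems
-/

set_option autoImplicit false
set_option linter.unusedSectionVars false

namespace Pool.Agent.V11248.Sts

open Pool.Agent.TH658.Sos Pool.Agent.TH658.Sos.Act Pool.Agent.W185.SRG Pool.Agent.W879.GW

variable {X L : Type} [AddCommGroup X] [SemilatticeSup L] [OrderBot L] {S : Sys X L}
  {V V' : Type} {G : SimpleGraph V} {H : SimpleGraph V'}

/-- Bijections of the vertices that depend on the level of the vertex. -/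
def levEquiv (A : Act S G H) (f : L → X) : V ≃ V' where
  toFun x := A.b (f (A.lv x)) x
  invFun y := (A.b (f (A.lv' y))).symm y
  left_inv x := by
    show (A.b (f (A.lv' (A.b (f (A.lv x)) x)))).symm (A.b (f (A.lv x)) x) = x
    rw [A.lev, Equiv.symm_apply_apply]
  right_inv y := by
    have h : A.lv ((A.b (f (A.lv' y))).symm y) = A.lv' y := by
      rw [← A.lev (f (A.lv' y)), Equiv.apply_symm_apply]
    show A.b (f (A.lv ((A.b (f (A.lv' y))).symm y))) ((A.b (f (A.lv' y))).symm y) = y
    rw [h, Equiv.apply_symm_apply]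

/-- The relation kept by the method. -/
def WGood (A : Act S G H) {k : ℕ} (w : Fin k → V) (w' : Fin k → V') : Prop :=
  ∃ M ∈ S.Sol (lvT A.lv w), ∀ i, w' i = A.b M (w i)

theorem lvT_update (A : Act S G H) {k : ℕ} (w : Fin k → V) (i : Fin k) (x : V) :
    lvT A.lv (Function.update w i x) ≤ lvT A.lv w ⊔ A.lv x := by
  refine Finset.sup_le fun a _ => ?_
  by_cases h : a = i
  · subst h
    rw [Function.update_self]
    exact le_sup_right
  · rw [Function.update_of_ne h]
    exact (lv_le_lvT w a).trans le_sup_left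

theorem act_wlEquivalent [Fintype V] [Fintype V'] (A : Act S G H) {k : ℕ}
    (hsz : A.c * (k + 1) ≤ S.K) : WLEquivalent k G H := by
  classical
  have hstart : ∀ W : L, ∃ M, S.size W ≤ S.K → M ∈ S.Sol W := by
    intro W
    by_cases h : S.size W ≤ S.K
    · obtain ⟨M, hM⟩ := S.nonempty W h
      exact ⟨M, fun _ => hM⟩
    · exact ⟨0, fun h' => absurd h' h⟩
  choose f hf using hstart
  have hszT : ∀ w : Fin k → V, S.size (lvT A.lv w) ≤ S.K := by
    intro w
    have h := size_lvT A w
    rw [Fintype.card_fin] at h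
    have h2 : A.c * k ≤ A.c * (k + 1) := Nat.mul_le_mul_left _ (Nat.le_succ k)
    exact (h.trans h2).trans hsz
  have lb : ∀ (M : X) (w : Fin k → V), lvT A.lv' (fun a => A.b M (w a)) = lvT A.lv w :=
    fun M w => lvT_congr fun a => A.lev M _
  refine ⟨⟨fun w i => A.b (f (lvT A.lv w)) (w i),
    fun w i => (A.b (f (lvT A.lv' w))).symm (w i), ?_, ?_⟩, fun t w => ?_⟩
  · intro w
    funext i
    show (A.b (f (lvT A.lv' fun i => A.b (f (lvT A.lv w)) (w i)))).symm _ = w i
    rw [lb, Equiv.symm_apply_apply]
  · intro w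
    funext i
    have h : lvT A.lv (fun i => (A.b (f (lvT A.lv' w))).symm (w i)) = lvT A.lv' w := by
      rw [← lb (f (lvT A.lv' w))]
      congr 1
      funext a
      rw [Equiv.apply_symm_apply]
    show A.b (f (lvT A.lv fun i => (A.b (f (lvT A.lv' w))).symm (w i)))
      ((A.b (f (lvT A.lv' w))).symm (w i)) = w i
    rw [h, Equiv.apply_symm_apply]
  · refine wl_of_good G H (WGood A) ?_ ?_ t w _ ⟨f (lvT A.lv w), hf _ (hszT w), fun i => rfl⟩
    · rintro w w' ⟨M, hM, hw⟩
      refine Prod.ext ?_ ?_
      · funext i j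
        show (w i = w j) = (w' i = w' j)
        rw [hw, hw]
        exact propext (A.b M).injective.eq_iff.symm
      · funext i j
        show (G.Adj (w i) (w j)) = (H.Adj (w' i) (w' j))
        rw [hw, hw]
        refine propext (A.iso _ _ M (S.Sol_anti _ _ ?_ hM))
        exact sup_le (lv_le_lvT w i) (lv_le_lvT w j)
    · rintro w w' ⟨M, hM, hw⟩
      have hext : ∀ W : L, ∃ M', S.size (lvT A.lv w ⊔ W) ≤ S.K →
          M' ∈ S.Sol (lvT A.lv w ⊔ W) ∧ M' - M ∈ S.N (lvT A.lv w) := by
        intro W
        by_cases h : S.size (lvT A.lv w ⊔ W) ≤ S.K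
        · obtain ⟨M', h1, h2⟩ := S.extend _ _ le_sup_left h M hM
          exact ⟨M', fun _ => ⟨h1, h2⟩⟩
        · exact ⟨0, fun h' => absurd h' h⟩
      choose f' hf' using hext
      refine ⟨levEquiv A f', fun x i => ?_⟩
      have hsx : S.size (lvT A.lv w ⊔ A.lv x) ≤ S.K := by
        have h1 := S.size_sup (lvT A.lv w) (A.lv x)
        have h2 := size_lvT A w
        have h3 := A.size x
        rw [Fintype.card_fin] at h2
        have h4 : A.c * (k + 1) = A.c * k + A.c := by ring
        omega
      obtain ⟨h1, h2⟩ := hf' _ hsx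
      refine ⟨f' (A.lv x), S.Sol_anti _ _ (lvT_update A w i x) h1, fun j => ?_⟩
      by_cases hj : j = i
      · subst hj
        rw [Function.update_self, Function.update_self]
        rfl
      · rw [Function.update_of_ne hj, Function.update_of_ne hj, hw]
        have h5 := A.inv M (f' (A.lv x) - M) (w j)
          (S.N_anti _ _ (lv_le_lvT w j) h2)
        rw [add_sub_cancel] at h5
        exact h5.symm

end Pool.Agent.V11248.Sts
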