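import Mathlib

/-!
# Steiner triple systems, Hall triple systems and their block graphs
-/

set_option autoImplicit false
set_option linter.unusedSectionVars false

namespace Pool.Agent.V11248.Sts

/-- `S` is the set of blocks of a Steiner triple system on the points `P`: all blocks have three
points, and any two different points are in exactly one common block. -/
def IsSteiner {P : Type} (S : Finset (Finset P)) : Prop :=
  (∀ s ∈ S, s.card = 3) ∧ ∀ x y : P, x ≠ y → ∃! s, s ∈ S ∧ x ∈ s ∧ y ∈ s

/-- For every point `x` there is an automorphism of order two of the system `S` that fixes only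
the point `x`. The Steiner triple systems with this property are the Hall triple systems, in which
any three points that are not in one block generate an affine plane with nine points. -/
def IsHall {P : Type} (S : Finset (Finset P)) : Prop :=
  ∀ x : P, ∃ σ : Equiv.Perm P, (∀ y, σ y = y ↔ y = x) ∧ (∀ y, σ (σ y) = y) ∧
    ∀ s ∈ S, s.map σ.toEmbedding ∈ S

/-- The block graph: the vertices are the blocks, and two different blocks are adjacent if they
have a common point. -/
def blockGraph {P : Type} (S : Finset (Finset P)) : SimpleGraph S where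
  Adj s t := s ≠ t ∧ ∃ x, x ∈ s.1 ∧ x ∈ t.1
  symm := ⟨fun _ _ h => ⟨h.1.symm, h.2.imp fun _ hx => hx.symm⟩⟩
  loopless := ⟨fun _ h => h.1 rfl⟩

section quasi

variable {P : Type} [Fintype P] [DecidableEq P]

/-- A totally symmetric idempotent operation. -/
structure Quasi (m : P → P → P) : Prop where
  idem : ∀ x, m x x = x
  comm : ∀ x y, m x y = m y x
  inv : ∀ x y, m x (m x y) = y

/-- The blocks of the operation `m`. -/
def blocks (m : P → P → P) : Finset (Finset P) :=
  Finset.univ.filter fun s => ∃ x y, x ≠ y ∧ s = {x, y, m x y}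

theorem mem_blocks {m : P → P → P} {s : Finset P} :
    s ∈ blocks m ↔ ∃ x y, x ≠ y ∧ s = {x, y, m x y} := by
  simp [blocks]

namespace Quasi

variable {m : P → P → P} (hm : Quasi m)
include hm

theorem inv' (x y : P) : m (m x y) y = x := by
  rw [hm.comm (m x y) y, hm.comm x y, hm.inv]

theorem ne1 {x y : P} (h : x ≠ y) : m x y ≠ x := by
  intro h1
  apply h
  have h2 := hm.inv x y
  rw [h1, hm.idem] at h2
  exact h2

theorem ne2 {x y : P} (h : x ≠ y) : m x y ≠ y := by
  rw [hm.comm]
  exact hm.ne1 h.symm

theorem mem_block {x y : P} (h : x ≠ y) : ({x, y, m x y} : Finset P) ∈ blocks m :=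
  mem_blocks.2 ⟨x, y, h, rfl⟩

/-- Two different points of a block determine the block. -/
theorem eq_of_mem {s : Finset P} (hs : s ∈ blocks m) {x y : P} (hxy : x ≠ y) (hx : x ∈ s)
    (hy : y ∈ s) : s = {x, y, m x y} := by
  obtain ⟨a, b, hab, rfl⟩ := mem_blocks.1 hs
  have e1 := hm.inv a b
  have e2 := hm.inv' a b
  have e3 := hm.comm a b
  have e4 := hm.comm (m a b) a
  have e5 := hm.comm (m a b) b
  simp only [Finset.mem_insert, Finset.mem_singleton] at hx hy
  rcases hx with rfl | rfl | rfl <;> rcases hy with rfl | rfl | rfl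
  · exact absurd rfl hxy
  · rfl
  · rw [e1]
    ext z
    simp only [Finset.mem_insert, Finset.mem_singleton]
    tauto
  · rw [← e3]
    ext z
    simp only [Finset.mem_insert, Finset.mem_singleton]
    tauto
  · exact absurd rfl hxy
  · rw [← e5, e2]
    ext z
    simp only [Finset.mem_insert, Finset.mem_singleton]
    tauto
  · rw [e4, e1]
    ext z
    simp only [Finset.mem_insert, Finset.mem_singleton]
    tauto
  · rw [e2]
    ext z
    simp only [Finset.mem_insert, Finset.mem_singleton]
    tauto
  · exact absurd rfl hxy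

theorem third_mem {s : Finset P} (hs : s ∈ blocks m) {x y : P} (hxy : x ≠ y) (hx : x ∈ s)
    (hy : y ∈ s) : m x y ∈ s := by
  rw [hm.eq_of_mem hs hxy hx hy]
  simp

theorem isSteiner : IsSteiner (blocks m) := by
  refine ⟨?_, ?_⟩
  · intro s hs
    obtain ⟨x, y, hxy, rfl⟩ := mem_blocks.1 hs
    rw [Finset.card_eq_three]
    exact ⟨x, y, m x y, hxy, (hm.ne1 hxy).symm, (hm.ne2 hxy).symm, rfl⟩
  · intro x y hxy
    refine ⟨{x, y, m x y}, ⟨hm.mem_block hxy, by simp, by simp⟩, ?_⟩
    rintro s ⟨hs, hx, hy⟩
    exact hm.eq_of_mem hs hxy hx hy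

/-- Reflections. -/
def refl (x : P) : Equiv.Perm P where
  toFun := m x
  invFun := m x
  left_inv y := hm.inv x y
  right_inv y := hm.inv x y

theorem map_block {σ : Equiv.Perm P} (h : ∀ x y, σ (m x y) = m (σ x) (σ y)) {s : Finset P}
    (hs : s ∈ blocks m) : s.map σ.toEmbedding ∈ blocks m := by
  obtain ⟨x, y, hxy, rfl⟩ := mem_blocks.1 hs
  rw [mem_blocks]
  refine ⟨σ x, σ y, fun h1 => hxy (σ.injective h1), ?_⟩
  rw [← h]
  simp [Finset.map_insert]

theorem isHall (hd : ∀ x y z, m x (m y z) = m (m x y) (m x z)) : IsHall (blocks m) := by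
  intro x
  refine ⟨hm.refl x, ?_, fun y => hm.inv x y, fun s hs => hm.map_block (fun y z => hd x y z) hs⟩
  intro y
  show m x y = y ↔ y = x
  constructor
  · intro h
    by_contra hne
    exact hm.ne2 (Ne.symm hne) h
  · rintro rfl
    exact hm.idem y

end Quasi

end quasi

end Pool.Agent.V11248.Sts
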