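import Pool.Agent.V11248.Sts.Layers

/-!
# Codes of the blocks
-/

set_option autoImplicit false
set_option linter.unusedSectionVars false

namespace Pool.Agent.V11248.Sts

open Pool.Agent.W879.GW Finset

section

variable {V Γ : Type} [AddCommGroup V] [AddCommGroup Γ] [Module (ZMod 3) V]
  [Module (ZMod 3) Γ] [Fintype V] [Fintype Γ] [DecidableEq V] [DecidableEq Γ]

/-- The third point of two points in one layer. -/
def th (a b : Pt V Γ) : Pt V Γ := ((-a.1.1 - b.1.1, -a.1.2 - b.1.2), -a.2 - b.2)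

theorem tp_eq_th (β : Bil V Γ) {a b : Pt V Γ} (h : a.2 = b.2) : tp β a b = th a b := by
  refine pt_ext rfl ?_ rfl
  show -a.1.2 - b.1.2 + (a.2 - b.2) • β.fn a.1.1 b.1.1 = -a.1.2 - b.1.2
  rw [h, sub_self, zero_smul, add_zero]

/-- The codes of the blocks: pairs of points, one of the layer `0` and one of the layer `1`, and
blocks in one layer. -/
def Cd (V Γ : Type) [AddCommGroup V] [AddCommGroup Γ] [DecidableEq V] [DecidableEq Γ] : Type :=
  ((V × Γ) × (V × Γ)) ⊕ {s : Finset (Pt V Γ) // ∃ a b, a ≠ b ∧ a.2 = b.2 ∧ s = {a, b, th a b}}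

/-- The block with a given code. -/
def toB (β : Bil V Γ) : Cd V Γ → Finset (Pt V Γ)
  | Sum.inl p => {(p.1, 0), (p.2, 1), tp β (p.1, 0) (p.2, 1)}
  | Sum.inr s => s.1

variable {β : Bil V Γ} (hβ : ∀ v, β.fn v v = 0)

theorem toB_mem (c : Cd V Γ) : toB β c ∈ blocks (tp β) := by
  rcases c with p | s
  · refine mem_blocks.2 ⟨(p.1, 0), (p.2, 1), fun h => ?_, rfl⟩
    have h1 : (0 : ZMod 3) = 1 := congrArg Prod.snd h
    exact absurd h1 (by decide)
  · obtain ⟨s, a, b, hab, h, rfl⟩ := s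
    refine mem_blocks.2 ⟨a, b, hab, ?_⟩
    rw [tp_eq_th β h]
    rfl

theorem toB_inl_layers (p : (V × Γ) × (V × Γ)) {a : Pt V Γ} (ha : a ∈ toB β (Sum.inl p)) :
    (a.2 = 0 → a = (p.1, 0)) ∧ (a.2 = 1 → a = (p.2, 1)) := by
  have h : a = (p.1, 0) ∨ a = (p.2, 1) ∨ a = tp β (p.1, 0) (p.2, 1) := by
    have h1 : a ∈ ({(p.1, 0), (p.2, 1), tp β (p.1, 0) (p.2, 1)} : Finset (Pt V Γ)) := ha
    simpa using h1
  rcases h with rfl | rfl | rfl
  · exact ⟨fun _ => rfl, fun h => absurd (show (0 : ZMod 3) = 1 from h) (by decide)⟩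
  · exact ⟨fun h => absurd (show (1 : ZMod 3) = 0 from h) (by decide), fun _ => rfl⟩
  · have h2 : (tp β (p.1, (0 : ZMod 3)) (p.2, 1)).2 = 2 := by
      show -(0 : ZMod 3) - 1 = 2
      decide
    rw [h2]
    exact ⟨fun h => absurd h (by decide), fun h => absurd h (by decide)⟩

theorem toB_inr_layers (s : {s : Finset (Pt V Γ) // ∃ a b, a ≠ b ∧ a.2 = b.2 ∧
    s = {a, b, th a b}}) {a b : Pt V Γ} (ha : a ∈ toB β (Sum.inr s)) (hb : b ∈ toB β (Sum.inr s)) :
    a.2 = b.2 := by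
  obtain ⟨s, c, d, hcd, h, rfl⟩ := s
  have h1 : ∀ e, e ∈ toB β (Sum.inr ⟨{c, d, th c d}, c, d, hcd, h, rfl⟩) → e.2 = d.2 := by
    intro e he
    have he' : e ∈ ({c, d, th c d} : Finset (Pt V Γ)) := he
    simp only [Finset.mem_insert, Finset.mem_singleton] at he'
    rcases he' with rfl | rfl | rfl
    · exact h
    · rfl
    · show -c.2 - d.2 = d.2
      rw [h, tor]
  rw [h1 a ha, h1 b hb]

theorem toB_inj : Function.Injective (toB β : Cd V Γ → Finset (Pt V Γ)) := by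
  have key : ∀ (p : (V × Γ) × (V × Γ)) s, toB β (Sum.inl p) ≠ toB β (Sum.inr s) := by
    intro p s h
    have h1 : (p.1, (0 : ZMod 3)) ∈ toB β (Sum.inr s) := by
      rw [← h]
      show _ ∈ ({(p.1, 0), (p.2, 1), tp β (p.1, 0) (p.2, 1)} : Finset (Pt V Γ))
      simp
    have h2 : (p.2, (1 : ZMod 3)) ∈ toB β (Sum.inr s) := by
      rw [← h]
      show _ ∈ ({(p.1, 0), (p.2, 1), tp β (p.1, 0) (p.2, 1)} : Finset (Pt V Γ))
      simp
    have h3 : (0 : ZMod 3) = 1 := toB_inr_layers s h1 h2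
    exact absurd h3 (by decide)
  rintro (p | s) (p' | s') h
  · have h1 : (p.1, (0 : ZMod 3)) ∈ toB β (Sum.inl p') := by
      rw [← h]
      show _ ∈ ({(p.1, 0), (p.2, 1), tp β (p.1, 0) (p.2, 1)} : Finset (Pt V Γ))
      simp
    have h2 : (p.2, (1 : ZMod 3)) ∈ toB β (Sum.inl p') := by
      rw [← h]
      show _ ∈ ({(p.1, 0), (p.2, 1), tp β (p.1, 0) (p.2, 1)} : Finset (Pt V Γ))
      simp
    have h3 := (toB_inl_layers p' h1).1 rfl
    have h4 := (toB_inl_layers p' h2).2 rfl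
    have h5 : p.1 = p'.1 := congrArg (fun a : Pt V Γ => a.1) h3
    have h6 : p.2 = p'.2 := congrArg (fun a : Pt V Γ => a.1) h4
    exact congrArg Sum.inl (Prod.ext h5 h6)
  · exact absurd h (key p s')
  · exact absurd h.symm (key p' s)
  · exact congrArg Sum.inr (Subtype.ext h)

include hβ in
theorem toB_surj {s : Finset (Pt V Γ)} (hs : s ∈ blocks (tp β)) : ∃ c, toB β c = s := by
  have hq := quasi_tp (Γ := Γ) hβ
  obtain ⟨x, y, hxy, rfl⟩ := mem_blocks.1 hs
  by_cases h : x.2 = y.2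
  · exact ⟨Sum.inr ⟨{x, y, tp β x y}, x, y, hxy, h, by rw [tp_eq_th β h]⟩, rfl⟩
  · have hex : ∀ i : ZMod 3, ∃ a ∈ ({x, y, tp β x y} : Finset (Pt V Γ)), a.2 = i := by
      intro i
      rcases zmod3_cases x.2 y.2 h i with h1 | h1 | h1
      · exact ⟨x, by simp, h1.symm⟩
      · exact ⟨y, by simp, h1.symm⟩
      · exact ⟨tp β x y, by simp, h1.symm⟩
    obtain ⟨a, ha, ha2⟩ := hex 0
    obtain ⟨b, hb, hb2⟩ := hex 1
    have hab : a ≠ b := by
      intro h'
      rw [h', hb2] at ha2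
      exact absurd ha2 (by decide)
    refine ⟨Sum.inl (a.1, b.1), ?_⟩
    rw [hq.eq_of_mem hs hab ha hb]
    have ea : a = (a.1, 0) := Prod.ext rfl ha2
    have eb : b = (b.1, 1) := Prod.ext rfl hb2
    show {(a.1, 0), (b.1, 1), tp β (a.1, 0) (b.1, 1)} = _
    rw [← ea, ← eb]

/-- The blocks correspond to the codes. -/
noncomputable def eB : Cd V Γ ≃ blocks (tp β) :=
  Equiv.ofBijective (fun c => ⟨toB β c, toB_mem c⟩)
    ⟨fun c c' h => toB_inj (congrArg Subtype.val h), fun s => by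
      obtain ⟨c, hc⟩ := toB_surj hβ s.2
      exact ⟨c, Subtype.ext hc⟩⟩

theorem eB_val (c : Cd V Γ) : (eB hβ c).1 = toB β c := rfl

end

end Pool.Agent.V11248.Sts
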