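import Pool.Agent.V11248.Sts.Basic
import Pool.Agent.W879.GW.Grp

/-!
# The Hall triple system of an alternating map over the field with three elements
-/

set_option autoImplicit false
set_option linter.unusedSectionVars false

namespace Pool.Agent.V11248.Sts

open Pool.Agent.W879.GW

section

variable {V Γ : Type} [AddCommGroup V] [AddCommGroup Γ] [Module (ZMod 3) V]
  [Module (ZMod 3) Γ]

/-- The points: pairs of a group element and a layer. -/
abbrev Pt (V Γ : Type) : Type := (V × Γ) × ZMod 3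

/-- The third point. -/
def tp (β : Bil V Γ) (a b : Pt V Γ) : Pt V Γ :=
  ((-a.1.1 - b.1.1, -a.1.2 - b.1.2 + (a.2 - b.2) • β.fn a.1.1 b.1.1), -a.2 - b.2)

theorem three_zero : (3 : ZMod 3) = 0 := by decide

theorem tor (M : Type) [AddCommGroup M] [Module (ZMod 3) M] (v : M) : -v - v = v := by
  have h : (3 : ZMod 3) • v = 0 := by rw [three_zero, zero_smul]
  have h1 : (3 : ZMod 3) • v = v + v + v := by module
  rw [h1] at h
  have h2 : -v - v = -(v + v + v) + v := by abel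
  rw [h2, h, neg_zero, zero_add]

theorem pt_ext {a b : Pt V Γ} (h1 : a.1.1 = b.1.1) (h2 : a.1.2 = b.1.2) (h3 : a.2 = b.2) :
    a = b := Prod.ext (Prod.ext h1 h2) h3

variable {β : Bil V Γ} (hβ : ∀ v, β.fn v v = 0)

include hβ in
theorem anti (u v : V) : β.fn u v = -β.fn v u := by
  have h := hβ (u + v)
  rw [β.add_left, β.add_right, β.add_right, hβ, hβ, zero_add, add_zero] at h
  rw [eq_neg_iff_add_eq_zero]
  exact h

theorem Bil.sub_left (β : Bil V Γ) (u u' v : V) : β.fn (u - u') v = β.fn u v - β.fn u' v := by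
  rw [sub_eq_add_neg, β.add_left, β.neg_left, ← sub_eq_add_neg]

theorem Bil.sub_right (β : Bil V Γ) (u v v' : V) : β.fn u (v - v') = β.fn u v - β.fn u v' := by
  rw [sub_eq_add_neg, β.add_right, β.neg_right, ← sub_eq_add_neg]

include hβ in
theorem tp_idem (a : Pt V Γ) : tp β a a = a := by
  refine pt_ext (tor V _) ?_ (tor (ZMod 3) _)
  show -a.1.2 - a.1.2 + (a.2 - a.2) • β.fn a.1.1 a.1.1 = a.1.2
  rw [sub_self, zero_smul, add_zero, tor]

include hβ in
theorem tp_comm (a b : Pt V Γ) : tp β a b = tp β b a := by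
  refine pt_ext ?_ ?_ ?_
  · show -a.1.1 - b.1.1 = -b.1.1 - a.1.1
    abel
  · show -a.1.2 - b.1.2 + (a.2 - b.2) • β.fn a.1.1 b.1.1 =
      -b.1.2 - a.1.2 + (b.2 - a.2) • β.fn b.1.1 a.1.1
    rw [anti hβ a.1.1 b.1.1]
    module
  · show -a.2 - b.2 = -b.2 - a.2
    ring

include hβ in
theorem tp_inv (a b : Pt V Γ) : tp β a (tp β a b) = b := by
  refine pt_ext ?_ ?_ ?_
  · show -a.1.1 - (-a.1.1 - b.1.1) = b.1.1
    abel
  · show -a.1.2 - (-a.1.2 - b.1.2 + (a.2 - b.2) • β.fn a.1.1 b.1.1) +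
      (a.2 - (-a.2 - b.2)) • β.fn a.1.1 (-a.1.1 - b.1.1) = b.1.2
    rw [Bil.sub_right, β.neg_right, hβ, neg_zero, zero_sub]
    have h : (3 * a.2) • β.fn a.1.1 b.1.1 = 0 := by rw [three_zero, zero_mul, zero_smul]
    have h2 : -a.1.2 - (-a.1.2 - b.1.2 + (a.2 - b.2) • β.fn a.1.1 b.1.1) +
      (a.2 - (-a.2 - b.2)) • (-β.fn a.1.1 b.1.1) = b.1.2 - (3 * a.2) • β.fn a.1.1 b.1.1 := by
      module
    rw [h2, h, sub_zero]
  · show -a.2 - (-a.2 - b.2) = b.2
    ring

include hβ in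
theorem tp_dist (a b c : Pt V Γ) : tp β a (tp β b c) = tp β (tp β a b) (tp β a c) := by
  refine pt_ext ?_ ?_ ?_
  · show -a.1.1 - (-b.1.1 - c.1.1) = -(-a.1.1 - b.1.1) - (-a.1.1 - c.1.1)
    have h := tor V a.1.1
    have h2 : -(-a.1.1 - b.1.1) - (-a.1.1 - c.1.1) =
      -(-a.1.1 - a.1.1) + b.1.1 + c.1.1 := by abel
    rw [h2, h]
    abel
  · show -a.1.2 - (-b.1.2 - c.1.2 + (b.2 - c.2) • β.fn b.1.1 c.1.1) +
      (a.2 - (-b.2 - c.2)) • β.fn a.1.1 (-b.1.1 - c.1.1) =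
      -(-a.1.2 - b.1.2 + (a.2 - b.2) • β.fn a.1.1 b.1.1) -
      (-a.1.2 - c.1.2 + (a.2 - c.2) • β.fn a.1.1 c.1.1) +
      ((-a.2 - b.2) - (-a.2 - c.2)) • β.fn (-a.1.1 - b.1.1) (-a.1.1 - c.1.1)
    simp only [Bil.sub_right, Bil.sub_left, β.neg_right, β.neg_left, hβ]
    rw [anti hβ b.1.1 a.1.1]
    match_scalars
    · decide
    · ring
    · ring
    · ring
    · linear_combination -b.2 * three_zero
    · linear_combination -c.2 * three_zero
  · show -a.2 - (-b.2 - c.2) = -(-a.2 - b.2) - (-a.2 - c.2)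
    linear_combination -a.2 * three_zero

end

end Pool.Agent.V11248.Sts
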