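import Pool.Agent.V11248.Sts.Hts
import Pool.Agent.W879.GW.Par

/-!
# Isomorphic Hall triple systems come from isomorphic groups
-/

set_option autoImplicit false
set_option linter.unusedSectionVars false

namespace Pool.Agent.V11248.Sts

open Pool.Agent.W879.GW Finset

section

variable {V Γ : Type} [AddCommGroup V] [AddCommGroup Γ] [Module (ZMod 3) V]
  [Module (ZMod 3) Γ] {β β' : Bil V Γ}

theorem quasi_tp [Fintype V] [Fintype Γ] [DecidableEq V] [DecidableEq Γ]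
    (hβ : ∀ v, β.fn v v = 0) : Quasi (tp β) :=
  ⟨tp_idem hβ, tp_comm hβ, tp_inv hβ⟩

/-- The map does not vanish on large subgroups. -/
def Spread (β : Bil V Γ) : Prop :=
  ∀ W : AddSubgroup V, Nat.card V ≤ 3 * Nat.card W → ∃ w ∈ W, ∃ x ∈ W, β.fn w x ≠ 0

/-- The defect of the medial law. -/
theorem medial_defect (hβ : ∀ v, β.fn v v = 0) (a b c d : Pt V Γ)
    (h : tp β (tp β a b) (tp β c d) = tp β (tp β a c) (tp β b d)) (h1 : c.2 = a.2)
    (h2 : d.2 = a.2) : (a.2 - b.2) • β.fn (c.1.1 - a.1.1) (d.1.1 - a.1.1) = 0 := by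
  have h' : -(-a.1.2 - b.1.2 + (a.2 - b.2) • β.fn a.1.1 b.1.1) -
      (-c.1.2 - d.1.2 + (c.2 - d.2) • β.fn c.1.1 d.1.1) +
      ((-a.2 - b.2) - (-c.2 - d.2)) • β.fn (-a.1.1 - b.1.1) (-c.1.1 - d.1.1) =
      -(-a.1.2 - c.1.2 + (a.2 - c.2) • β.fn a.1.1 c.1.1) -
      (-b.1.2 - d.1.2 + (b.2 - d.2) • β.fn b.1.1 d.1.1) +
      ((-a.2 - c.2) - (-b.2 - d.2)) • β.fn (-a.1.1 - c.1.1) (-b.1.1 - d.1.1) :=
    congrArg (fun p : Pt V Γ => p.1.2) h
  rw [h1, h2] at h'
  simp only [Bil.sub_right, Bil.sub_left, β.neg_right, β.neg_left, hβ] at h' ⊢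
  rw [anti hβ c.1.1 a.1.1] at ⊢
  rw [anti hβ c.1.1 b.1.1, ← sub_eq_zero] at h'
  refine Eq.trans ?_ h'
  match_scalars
  all_goals first | ring1 | linear_combination (b.2 - a.2) * three_zero

theorem zmod3_cases (i j : ZMod 3) (h : i ≠ j) (k : ZMod 3) : k = i ∨ k = j ∨ k = -i - j := by
  revert i j k
  decide

/-- The images of a layer are in one layer. -/
theorem layer_image [Fintype V] [Fintype Γ] (hβ : ∀ v, β.fn v v = 0) (hβ' : ∀ v, β'.fn v v = 0)
    (hs : Spread β') (φ : Pt V Γ ≃ Pt V Γ)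
    (hφ : ∀ a b, φ (tp β a b) = tp β' (φ a) (φ b)) {a b : Pt V Γ} (hab : a.2 = b.2) :
    (φ a).2 = (φ b).2 := by
  classical
  by_contra hne
  -- the image of the layer
  let U : Finset (Pt V Γ) := (univ.filter fun p : Pt V Γ => p.2 = a.2).map φ.toEmbedding
  have hU : ∀ p, p ∈ U ↔ ∃ c : Pt V Γ, c.2 = a.2 ∧ φ c = p := by
    intro p
    rw [Finset.mem_map]
    constructor
    · rintro ⟨c, hc, rfl⟩
      exact ⟨c, (Finset.mem_filter.1 hc).2, rfl⟩
    · rintro ⟨c, hc, rfl⟩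
      exact ⟨c, Finset.mem_filter.2 ⟨Finset.mem_univ _, hc⟩, rfl⟩
  have hcl : ∀ p ∈ U, ∀ r ∈ U, tp β' p r ∈ U := by
    intro p hp r hr
    obtain ⟨c, hc, rfl⟩ := (hU p).1 hp
    obtain ⟨d, hd, rfl⟩ := (hU r).1 hr
    rw [← hφ]
    refine (hU _).2 ⟨_, ?_, rfl⟩
    show -c.2 - d.2 = a.2
    rw [hc, hd, tor]
  have hmed : ∀ p ∈ U, ∀ r ∈ U, ∀ s ∈ U, ∀ t ∈ U,
      tp β' (tp β' p r) (tp β' s t) = tp β' (tp β' p s) (tp β' r t) := by
    intro p hp r hr s hs t ht
    obtain ⟨c, hc, rfl⟩ := (hU p).1 hp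
    obtain ⟨d, hd, rfl⟩ := (hU r).1 hr
    obtain ⟨e, he, rfl⟩ := (hU s).1 hs
    obtain ⟨f, hf, rfl⟩ := (hU t).1 ht
    rw [← hφ, ← hφ, ← hφ, ← hφ, ← hφ, ← hφ]
    congr 1
    refine pt_ext ?_ ?_ ?_
    · show -(-c.1.1 - d.1.1) - (-e.1.1 - f.1.1) = -(-c.1.1 - e.1.1) - (-d.1.1 - f.1.1)
      abel
    · show -(-c.1.2 - d.1.2 + (c.2 - d.2) • β.fn c.1.1 d.1.1) -
        (-e.1.2 - f.1.2 + (e.2 - f.2) • β.fn e.1.1 f.1.1) +
        ((-c.2 - d.2) - (-e.2 - f.2)) • β.fn (-c.1.1 - d.1.1) (-e.1.1 - f.1.1) =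
        -(-c.1.2 - e.1.2 + (c.2 - e.2) • β.fn c.1.1 e.1.1) -
        (-d.1.2 - f.1.2 + (d.2 - f.2) • β.fn d.1.1 f.1.1) +
        ((-c.2 - e.2) - (-d.2 - f.2)) • β.fn (-c.1.1 - e.1.1) (-d.1.1 - f.1.1)
      rw [hc, hd, he, hf]
      simp only [sub_self, zero_smul, add_zero]
      abel
    · show -(-c.2 - d.2) - (-e.2 - f.2) = -(-c.2 - e.2) - (-d.2 - f.2)
      ring
  have ha : φ a ∈ U := (hU _).2 ⟨a, rfl, rfl⟩
  have hb : φ b ∈ U := (hU _).2 ⟨b, hab.symm, rfl⟩
  -- differences of points of the image in the layer of `φ a`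
  have hvan : ∀ c ∈ U, ∀ d ∈ U, c.2 = (φ a).2 → d.2 = (φ a).2 →
      β'.fn (c.1.1 - (φ a).1.1) (d.1.1 - (φ a).1.1) = 0 := by
    intro c hc d hd h1 h2
    have h3 := medial_defect hβ' (φ a) (φ b) c d (hmed _ ha _ hb _ hc _ hd) h1 h2
    rcases smul_eq_zero.1 h3 with h4 | h4
    · exact absurd (sub_eq_zero.1 h4) hne
    · exact h4
  let W₀ : Set V := {w | ∃ c ∈ U, c.2 = (φ a).2 ∧ w = c.1.1 - (φ a).1.1}
  let W : AddSubgroup V := AddSubgroup.closure W₀
  have hW0 : ∀ w ∈ W₀, ∀ x ∈ W₀, β'.fn w x = 0 := by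
    rintro w ⟨c, hc, hc2, rfl⟩ x ⟨d, hd, hd2, rfl⟩
    exact hvan c hc d hd hc2 hd2
  have hW1 : ∀ w ∈ W₀, ∀ x ∈ W, β'.fn w x = 0 := by
    intro w hw x hx
    induction hx using AddSubgroup.closure_induction with
    | mem x hx => exact hW0 w hw x hx
    | zero => exact β'.zero_right w
    | add x y _ _ h1 h2 => rw [β'.add_right, h1, h2, add_zero]
    | neg x _ h1 => rw [β'.neg_right, h1, neg_zero]
  have hW2 : ∀ w ∈ W, ∀ x ∈ W, β'.fn w x = 0 := by
    intro w hw x hx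
    induction hw using AddSubgroup.closure_induction with
    | mem w hw => exact hW1 w hw x hx
    | zero => exact β'.zero_left x
    | add w y _ _ h1 h2 => rw [β'.add_left, h1, h2, add_zero]
    | neg w _ h1 => rw [β'.neg_left, h1, neg_zero]
  -- counting
  have hcU : U.card = Fintype.card V * Fintype.card Γ := by
    rw [Finset.card_map]
    have h1 : (univ.filter fun p : Pt V Γ => p.2 = a.2) =
        (univ : Finset (V × Γ)) ×ˢ ({a.2} : Finset (ZMod 3)) := by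
      ext p
      rw [Finset.mem_product, Finset.mem_filter, Finset.mem_singleton]
      exact ⟨fun h => ⟨Finset.mem_univ _, h.2⟩, fun h => ⟨Finset.mem_univ _, h.2⟩⟩
    rw [h1, Finset.card_product, Finset.card_univ, Fintype.card_prod, Finset.card_singleton,
      mul_one]
  let U₀ : Finset (Pt V Γ) := U.filter fun p => p.2 = (φ a).2
  have hinj : ∀ e : Pt V Γ, Function.Injective (fun c => tp β' c e) := by
    intro e c c' h
    have h1 : tp β' c e = tp β' c' e := h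
    rw [tp_comm hβ' c, tp_comm hβ' c'] at h1
    rw [← tp_inv hβ' e c, h1, tp_inv hβ']
  have hlay : ∀ (j : ZMod 3) (e : Pt V Γ), e ∈ U → -j - e.2 = (φ a).2 →
      (U.filter fun p => p.2 = j).card ≤ U₀.card := by
    intro j e he hj
    refine Finset.card_le_card_of_injOn (fun c => tp β' c e) ?_ (hinj e).injOn
    intro c hc
    obtain ⟨h1, h2⟩ := Finset.mem_filter.1 hc
    refine Finset.mem_filter.2 ⟨hcl _ h1 _ he, ?_⟩
    show -c.2 - e.2 = (φ a).2
    rw [h2, hj]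
  have h3 : U.card ≤ 3 * U₀.card := by
    have h4 : U ⊆ U₀ ∪ ((U.filter fun p => p.2 = (φ b).2) ∪
        (U.filter fun p => p.2 = -(φ a).2 - (φ b).2)) := by
      intro p hp
      rw [Finset.mem_union, Finset.mem_union, Finset.mem_filter, Finset.mem_filter,
        Finset.mem_filter]
      rcases zmod3_cases (φ a).2 (φ b).2 hne p.2 with h | h | h
      · exact Or.inl ⟨hp, h⟩
      · exact Or.inr (Or.inl ⟨hp, h⟩)
      · exact Or.inr (Or.inr ⟨hp, h⟩)
    have h5 := Finset.card_le_card h4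
    have h6 := Finset.card_union_le U₀ ((U.filter fun p => p.2 = (φ b).2) ∪
        (U.filter fun p => p.2 = -(φ a).2 - (φ b).2))
    have h7 := Finset.card_union_le (U.filter fun p => p.2 = (φ b).2)
        (U.filter fun p => p.2 = -(φ a).2 - (φ b).2)
    have h8 := hlay (φ b).2 (tp β' (φ a) (φ b)) (hcl _ ha _ hb) (by
      show -(φ b).2 - (-(φ a).2 - (φ b).2) = (φ a).2
      ring)
    have h9 := hlay (-(φ a).2 - (φ b).2) (φ b) hb (by ring)
    omega
  have h4 : U₀.card ≤ Nat.card W * Fintype.card Γ := by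
    have h5 : U₀.card ≤ ((Set.toFinite (W : Set V)).toFinset ×ˢ (univ : Finset Γ)).card := by
      refine Finset.card_le_card_of_injOn (fun c => (c.1.1 - (φ a).1.1, c.1.2)) ?_ ?_
      · intro c hc
        obtain ⟨h1, h2⟩ := Finset.mem_filter.1 hc
        refine Finset.mem_product.2 ⟨?_, Finset.mem_univ _⟩
        rw [Set.Finite.mem_toFinset]
        exact AddSubgroup.subset_closure ⟨c, h1, h2, rfl⟩
      · intro c hc d hd h
        have h1 := congrArg Prod.fst h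
        have h2 := congrArg Prod.snd h
        exact pt_ext (sub_left_injective h1) h2
          ((Finset.mem_filter.1 hc).2.trans (Finset.mem_filter.1 hd).2.symm)
    rw [Finset.card_product, Finset.card_univ] at h5
    have h6 : (Set.toFinite (W : Set V)).toFinset.card = Nat.card W := by
      rw [← Set.ncard_eq_toFinset_card]
      rfl
    rwa [h6] at h5
  obtain ⟨w, hw, x, hx, hwx⟩ := hs W (by
    have hΓ : 0 < Fintype.card Γ := Fintype.card_pos
    rw [Nat.card_eq_fintype_card]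
    have h5 : Fintype.card V * Fintype.card Γ ≤ (3 * Nat.card W) * Fintype.card Γ := by
      rw [← hcU]
      calc U.card ≤ 3 * U₀.card := h3
        _ ≤ 3 * (Nat.card W * Fintype.card Γ) := Nat.mul_le_mul_left 3 h4
        _ = _ := by ring
    exact Nat.le_of_mul_le_mul_right h5 hΓ)
  exact hwx (hW2 w hw x hx)

/-- The third point of points of the layers `0` and `1` is the inverse of the product. -/
theorem tp_prod (hβ : ∀ v, β.fn v v = 0) (x y : GE β) :
    tp β ((vc x, zc x), 0) ((vc y, zc y), 1) = ((vc (x * y)⁻¹, zc (x * y)⁻¹), 2) := by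
  refine pt_ext ?_ ?_ ?_
  · show -vc x - vc y = -(vc x + vc y)
    abel
  · show -zc x - zc y + ((0 : ZMod 3) - 1) • β.fn (vc x) (vc y) = zc (x * y)⁻¹
    rw [zc_inv, hβ, add_zero, zc_mul]
    module
  · show -(0 : ZMod 3) - 1 = 2
    decide

theorem group_iso [Fintype V] [Fintype Γ] (hβ : ∀ v, β.fn v v = 0) (hβ' : ∀ v, β'.fn v v = 0)
    (hs : Spread β') (φ : Pt V Γ ≃ Pt V Γ)
    (hφ : ∀ a b, φ (tp β a b) = tp β' (φ a) (φ b)) : Nonempty (GE β ≃* GE β') := by
  classical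
  have hlay : ∀ a b : Pt V Γ, a.2 = b.2 → (φ a).2 = (φ b).2 := fun a b h =>
    layer_image hβ hβ' hs φ hφ h
  let O : ZMod 3 → Pt V Γ := fun i => ((0, 0), i)
  have hr : ∀ i (a : Pt V Γ), a.2 = i → (φ a).2 = (φ (O i)).2 := fun i a h => hlay a (O i) h
  -- the third layer
  have h2 : (φ (O 2)).2 = -(φ (O 0)).2 - (φ (O 1)).2 := by
    have h1 : (φ (tp β (O 0) (O 1))).2 = -(φ (O 0)).2 - (φ (O 1)).2 := by
      rw [hφ]
      rfl
    rw [← h1]
    refine (hr 2 _ ?_).symm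
    show -(0 : ZMod 3) - 1 = 2
    decide
  have hne : (φ (O 0)).2 ≠ (φ (O 1)).2 := by
    intro h
    have h3 : ∀ i, (φ (O i)).2 = (φ (O 0)).2 := by
      intro i
      have h4 : i = 0 ∨ i = 1 ∨ i = 2 := by
        revert i
        decide
      rcases h4 with rfl | rfl | rfl
      · rfl
      · exact h.symm
      · rw [h2, ← h, tor]
    have h5 : ∃ j : ZMod 3, j ≠ (φ (O 0)).2 := by
      generalize (φ (O 0)).2 = r
      revert r
      decide
    obtain ⟨j, hj⟩ := h5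
    apply hj
    have h6 := hr _ (φ.symm ((0, 0), j)) rfl
    rw [h3, Equiv.apply_symm_apply] at h6
    exact h6
  -- the maps of the layers
  let u : ZMod 3 → GE β → GE β' := fun i x => mk β' (φ ((vc x, zc x), i)).1.1
    (φ ((vc x, zc x), i)).1.2
  have hu : ∀ i (x : GE β), φ ((vc x, zc x), i) = ((vc (u i x), zc (u i x)), (φ (O i)).2) := by
    intro i x
    exact pt_ext rfl rfl (hr i _ rfl)
  have hinj : ∀ i, Function.Injective (u i) := by
    intro i x y h
    have h1 : φ ((vc x, zc x), i) = φ ((vc y, zc y), i) := by rw [hu, hu, h]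
    have h3 := φ.injective h1
    exact GE_ext (congrArg (fun p : Pt V Γ => p.1.1) h3) (congrArg (fun p : Pt V Γ => p.1.2) h3)
  have hbij : ∀ i, Function.Bijective (u i) := by
    intro i
    rw [Fintype.bijective_iff_injective_and_card]
    refine ⟨hinj i, ?_⟩
    rw [card_GE, card_GE]
  have key : ∀ x y : GE β, φ (tp β ((vc x, zc x), 0) ((vc y, zc y), 1)) =
      ((vc (u 2 (x * y)⁻¹), zc (u 2 (x * y)⁻¹)), (φ (O 2)).2) := by
    intro x y
    rw [tp_prod hβ, hu]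
  have key2 : ∀ x y : GE β,
      ((vc (u 2 (x * y)⁻¹), zc (u 2 (x * y)⁻¹)), (φ (O 2)).2) =
      tp β' ((vc (u 0 x), zc (u 0 x)), (φ (O 0)).2) ((vc (u 1 y), zc (u 1 y)), (φ (O 1)).2) := by
    intro x y
    rw [← key, hφ, hu, hu]
  have h01 : (φ (O 0)).2 - (φ (O 1)).2 = -1 ∨ (φ (O 0)).2 - (φ (O 1)).2 = 1 := by
    revert hne
    generalize (φ (O 0)).2 = r
    generalize (φ (O 1)).2 = t
    revert r t
    decide
  rcases h01 with h01 | h01
  · have h3 : ∀ x y, (u 2 (x * y)⁻¹)⁻¹ = u 0 x * u 1 y := by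
      intro x y
      rw [inv_eq_iff_eq_inv]
      have h4 := key2 x y
      refine GE_ext (congrArg (fun p : Pt V Γ => p.1.1) h4 |>.trans ?_)
        (congrArg (fun p : Pt V Γ => p.1.2) h4 |>.trans ?_)
      · show -vc (u 0 x) - vc (u 1 y) = -(vc (u 0 x) + vc (u 1 y))
        abel
      · show -zc (u 0 x) - zc (u 1 y) +
          ((φ (O 0)).2 - (φ (O 1)).2) • β'.fn (vc (u 0 x)) (vc (u 1 y)) = zc (u 0 x * u 1 y)⁻¹
        rw [zc_inv, hβ', add_zero, zc_mul, h01]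
        module
    refine albert (u 0) (u 1) (fun t => (u 2 t⁻¹)⁻¹) ?_ h3
    exact (Equiv.inv (GE β')).bijective.comp ((hbij 2).comp (Equiv.inv (GE β)).bijective)
  · have h3 : ∀ x y, u 2 (x * y)⁻¹ = (u 0 x)⁻¹ * (u 1 y)⁻¹ := by
      intro x y
      rw [← mul_inv_rev]
      have h4 := key2 x y
      refine GE_ext (congrArg (fun p : Pt V Γ => p.1.1) h4 |>.trans ?_)
        (congrArg (fun p : Pt V Γ => p.1.2) h4 |>.trans ?_)
      · show -vc (u 0 x) - vc (u 1 y) = -(vc (u 1 y) + vc (u 0 x))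
        abel
      · show -zc (u 0 x) - zc (u 1 y) +
          ((φ (O 0)).2 - (φ (O 1)).2) • β'.fn (vc (u 0 x)) (vc (u 1 y)) = zc (u 1 y * u 0 x)⁻¹
        rw [zc_inv, hβ', add_zero, zc_mul, h01, anti hβ' (vc (u 1 y)) (vc (u 0 x))]
        module
    refine albert (fun x => (u 0 x)⁻¹) (fun y => (u 1 y)⁻¹) (fun t => u 2 t⁻¹) ?_ h3
    exact (hbij 2).comp (Equiv.inv (GE β)).bijective

end

end Pool.Agent.V11248.Sts
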