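import Pool.Agent.V11248.Sts.Basic

/-!
# Steiner triple systems are determined by their block graphs
-/

set_option autoImplicit false
set_option linter.unusedSectionVars false

namespace Pool.Agent.V11248.Sts

open Finset

section

variable {P : Type} [Fintype P] [DecidableEq P] {m : P → P → P} (hm : Quasi m)

/-- The blocks through a point. -/
def pencil (m : P → P → P) (x : P) : Finset (Finset P) := (blocks m).filter fun s => x ∈ s

theorem mem_pencil {x : P} {s : Finset P} : s ∈ pencil m x ↔ s ∈ blocks m ∧ x ∈ s := by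
  simp [pencil]

include hm

theorem eq_of_two {s t : Finset P} (hs : s ∈ blocks m) (ht : t ∈ blocks m) {x y : P}
    (hxy : x ≠ y) (h1 : x ∈ s) (h2 : y ∈ s) (h3 : x ∈ t) (h4 : y ∈ t) : s = t := by
  rw [hm.eq_of_mem hs hxy h1 h2, hm.eq_of_mem ht hxy h3 h4]

theorem card_pencil (x : P) : Fintype.card P ≤ 2 * (pencil m x).card + 1 := by
  have h1 : (univ : Finset P) ⊆ insert x ((pencil m x).biUnion fun s => s.erase x) := by
    intro y _
    rw [Finset.mem_insert, Finset.mem_biUnion]
    by_cases hy : y = x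
    · exact Or.inl hy
    · right
      exact ⟨{x, y, m x y}, mem_pencil.2 ⟨hm.mem_block (Ne.symm hy), by simp⟩,
        Finset.mem_erase.2 ⟨hy, by simp⟩⟩
  have h2 := Finset.card_le_card h1
  have h3 := Finset.card_insert_le x ((pencil m x).biUnion fun s => s.erase x)
  have h4 : ((pencil m x).biUnion fun s => s.erase x).card ≤ (pencil m x).card * 2 := by
    refine Finset.card_biUnion_le_card_mul _ _ _ fun s hs => ?_
    obtain ⟨hs1, hs2⟩ := mem_pencil.1 hs
    rw [Finset.card_erase_of_mem hs2, hm.isSteiner.1 s hs1]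
  rw [Finset.card_univ] at h2
  omega

/-- Eight pairwise intersecting blocks have a common point. -/
theorem clique {F : Finset (Finset P)} (hF : F ⊆ blocks m) (h8 : 8 ≤ F.card)
    (hint : ∀ s ∈ F, ∀ t ∈ F, ∃ x, x ∈ s ∧ x ∈ t) : ∃ x, ∀ s ∈ F, x ∈ s := by
  obtain ⟨s₀, hs₀⟩ : F.Nonempty := by
    rw [← Finset.card_pos]
    omega
  have h1 : F.erase s₀ ⊆ s₀.biUnion fun p => (F.erase s₀).filter fun s => p ∈ s := by
    intro s hs
    obtain ⟨x, hx1, hx2⟩ := hint s (Finset.mem_of_mem_erase hs) s₀ hs₀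
    rw [Finset.mem_biUnion]
    exact ⟨x, hx2, Finset.mem_filter.2 ⟨hs, hx1⟩⟩
  have h2 : ∃ p ∈ s₀, 3 ≤ ((F.erase s₀).filter fun s => p ∈ s).card := by
    by_contra hcon
    push Not at hcon
    have h3 := Finset.card_le_card h1
    have h4 := Finset.card_biUnion_le_card_mul s₀
      (fun p => (F.erase s₀).filter fun s => p ∈ s) 2 fun p hp => Nat.le_of_lt_succ (hcon p hp)
    rw [hm.isSteiner.1 s₀ (hF hs₀)] at h4
    rw [Finset.card_erase_of_mem hs₀] at h3
    omega
  obtain ⟨p, hp, h3⟩ := h2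
  refine ⟨p, fun t ht => ?_⟩
  by_contra hpt
  have h4 : 4 ≤ (F.filter fun s => p ∈ s).card := by
    have h5 : insert s₀ ((F.erase s₀).filter fun s => p ∈ s) ⊆ F.filter fun s => p ∈ s := by
      intro s hs
      rw [Finset.mem_insert] at hs
      rcases hs with rfl | hs
      · exact Finset.mem_filter.2 ⟨hs₀, hp⟩
      · obtain ⟨h6, h7⟩ := Finset.mem_filter.1 hs
        exact Finset.mem_filter.2 ⟨Finset.mem_of_mem_erase h6, h7⟩
    have h6 := Finset.card_le_card h5
    rw [Finset.card_insert_of_notMem (by simp)] at h6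
    omega
  have h5 : ∀ s : {s // s ∈ F.filter fun s => p ∈ s}, ∃ x, x ∈ s.1 ∧ x ∈ t := fun s =>
    hint s.1 (Finset.mem_filter.1 s.2).1 t ht
  choose g hg1 hg2 using h5
  have h6 : Function.Injective g := by
    intro s s' h
    apply Subtype.ext
    have hp1 : p ≠ g s := fun h' => hpt (h' ▸ hg2 s)
    exact eq_of_two hm (hF (Finset.mem_filter.1 s.2).1) (hF (Finset.mem_filter.1 s'.2).1) hp1
      (Finset.mem_filter.1 s.2).2 (hg1 s) (Finset.mem_filter.1 s'.2).2 (h ▸ hg1 s')
  have h7 : (F.filter fun s => p ∈ s).card ≤ t.card := by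
    have h8 : ((F.filter fun s => p ∈ s).attach.image g) ⊆ t := by
      intro x hx
      obtain ⟨s, -, rfl⟩ := Finset.mem_image.1 hx
      exact hg2 s
    have h9 := Finset.card_le_card h8
    rwa [Finset.card_image_of_injective _ h6, Finset.card_attach] at h9
  rw [hm.isSteiner.1 t (hF ht)] at h7
  omega

/-- Only the point `x` is in all the blocks through `x`. -/
theorem common_eq {x z : P} (h4 : 4 ≤ Fintype.card P) (h : ∀ s ∈ pencil m x, z ∈ s) : z = x := by
  by_contra hne
  have h1 : ∃ w, w ∉ ({x, z, m x z} : Finset P) := by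
    by_contra hcon
    push Not at hcon
    have h2 : (univ : Finset P) ⊆ {x, z, m x z} := fun w _ => hcon w
    have h3 := Finset.card_le_card h2
    have h5 : ({x, z, m x z} : Finset P).card ≤ 3 := Finset.card_le_three
    rw [Finset.card_univ] at h3
    omega
  obtain ⟨w, hw⟩ := h1
  have hwx : x ≠ w := fun h' => hw (by simp [h'])
  have h2 := h {x, w, m x w} (mem_pencil.2 ⟨hm.mem_block hwx, by simp⟩)
  apply hw
  have h3 := hm.eq_of_mem (hm.mem_block hwx) (Ne.symm hne) (by simp) h2
  rw [← h3]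
  simp

end

section

variable {P P' : Type} [Fintype P] [DecidableEq P] [Fintype P'] [DecidableEq P']
  {m : P → P → P} {m' : P' → P' → P'}

theorem exists_point (hm : Quasi m) (hm' : Quasi m')
    (Φ : blockGraph (blocks m) ≃g blockGraph (blocks m')) (h16 : 16 ≤ Fintype.card P) (x : P) :
    ∃ y : P', ∀ s : blocks m, x ∈ s.1 → y ∈ (Φ s).1 := by
  let F : Finset (Finset P') := (univ.filter fun s : blocks m => x ∈ s.1).image fun s => (Φ s).1
  have hF : F ⊆ blocks m' := by
    intro t ht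
    obtain ⟨s, -, rfl⟩ := Finset.mem_image.1 ht
    exact (Φ s).2
  have hc : (pencil m x).card ≤ F.card := by
    have h1 : (univ.filter fun s : blocks m => x ∈ s.1).card = F.card := by
      refine (Finset.card_image_of_injective _ ?_).symm
      intro s s' h
      exact Φ.injective (Subtype.ext h)
    rw [← h1]
    have h2 : pencil m x ⊆ (univ.filter fun s : blocks m => x ∈ s.1).image fun s => s.1 := by
      intro s hs
      obtain ⟨h3, h4⟩ := mem_pencil.1 hs
      exact Finset.mem_image.2 ⟨⟨s, h3⟩, by simpa using h4, rfl⟩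
    exact (Finset.card_le_card h2).trans Finset.card_image_le
  have h8 : 8 ≤ F.card := by
    have := card_pencil hm x
    omega
  obtain ⟨y, hy⟩ := clique hm' hF h8 (by
    intro s hs t ht
    obtain ⟨s, hs1, rfl⟩ := Finset.mem_image.1 hs
    obtain ⟨t, ht1, rfl⟩ := Finset.mem_image.1 ht
    by_cases hst : s = t
    · subst hst
      have h3 := hm'.isSteiner.1 _ (Φ s).2
      obtain ⟨z, hz⟩ : (Φ s).1.Nonempty := by
        rw [← Finset.card_pos, h3]
        norm_num
      exact ⟨z, hz, hz⟩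
    · have h3 : (blockGraph (blocks m)).Adj s t :=
        ⟨hst, x, (Finset.mem_filter.1 hs1).2, (Finset.mem_filter.1 ht1).2⟩
      have h4 := (Φ.map_adj_iff).2 h3
      exact h4.2)
  exact ⟨y, fun s hs => hy _ (Finset.mem_image.2 ⟨s, by simpa using hs, rfl⟩)⟩

/-- An isomorphism of the block graphs comes from an isomorphism of the systems. -/
theorem exists_iso (hm : Quasi m) (hm' : Quasi m')
    (Φ : blockGraph (blocks m) ≃g blockGraph (blocks m')) (h16 : 16 ≤ Fintype.card P)
    (h16' : 16 ≤ Fintype.card P') :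
    ∃ φ : P ≃ P', ∀ x y, φ (m x y) = m' (φ x) (φ y) := by
  choose φ hφ using exists_point hm hm' Φ h16
  choose ψ hψ using exists_point hm' hm Φ.symm h16'
  have e1 : ∀ x, ψ (φ x) = x := by
    intro x
    refine common_eq hm (by omega) fun s hs => ?_
    obtain ⟨h1, h2⟩ := mem_pencil.1 hs
    have h3 := hψ (φ x) (Φ ⟨s, h1⟩) (hφ x ⟨s, h1⟩ h2)
    have h4 : Φ.symm (Φ ⟨s, h1⟩) = ⟨s, h1⟩ := Φ.symm_apply_apply _
    rwa [h4] at h3
  have e2 : ∀ x, φ (ψ x) = x := by
    intro x
    refine common_eq hm' (by omega) fun s hs => ?_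
    obtain ⟨h1, h2⟩ := mem_pencil.1 hs
    have h3 := hφ (ψ x) (Φ.symm ⟨s, h1⟩) (hψ x ⟨s, h1⟩ h2)
    have h4 : Φ (Φ.symm ⟨s, h1⟩) = ⟨s, h1⟩ := Φ.apply_symm_apply _
    rwa [h4] at h3
  have hinj : Function.Injective φ := Function.LeftInverse.injective e1
  refine ⟨⟨φ, ψ, e1, e2⟩, fun x y => ?_⟩
  show φ (m x y) = m' (φ x) (φ y)
  by_cases hxy : x = y
  · subst hxy
    rw [hm.idem, hm'.idem]
  · have hb := hm.mem_block hxy
    have h1 := hφ x ⟨_, hb⟩ (by simp)
    have h2 := hφ y ⟨_, hb⟩ (by simp)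
    have h3 := hφ (m x y) ⟨_, hb⟩ (by simp)
    have h4 := hm'.eq_of_mem (Φ ⟨_, hb⟩).2 (hinj.ne hxy) h1 h2
    rw [h4] at h3
    simp only [Finset.mem_insert, Finset.mem_singleton] at h3
    rcases h3 with h3 | h3 | h3
    · exact absurd (hinj h3) (hm.ne1 hxy)
    · exact absurd (hinj h3) (hm.ne2 hxy)
    · exact h3

end

end Pool.Agent.V11248.Sts
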