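import Pool.Agent.V11248.Sts.Code
import Pool.Agent.TH658.Sos.ImGrp

/-!
# Shears act on the blocks
-/

set_option autoImplicit false
set_option linter.unusedSectionVars false

namespace Pool.Agent.V11248.Sts

open Module Pool.Agent.W879.GW Pool.Agent.TH658.Sos Finset

section

variable {A : Type} [AddCommGroup A] [Module (ZMod 3) A]
  {g : ℕ} {B : Submodule (ZMod 3) (Fin g → Dual (ZMod 3) A)}

/-- The shear of the elements. -/
def shE (M : A →ₗ[ZMod 3] B) (x : (A × B) × (Fin g → ZMod 3)) : (A × B) × (Fin g → ZMod 3) :=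
  ((x.1.1, x.1.2 + M x.1.1), x.2)

/-- The shear of the points. -/
def shP (M : A →ₗ[ZMod 3] B) (a : Pt (A × B) (Fin g → ZMod 3)) : Pt (A × B) (Fin g → ZMod 3) :=
  (shE M a.1, a.2)

/-- The inverse shear of the elements. -/
def shEn (M : A →ₗ[ZMod 3] B) (x : (A × B) × (Fin g → ZMod 3)) : (A × B) × (Fin g → ZMod 3) :=
  ((x.1.1, x.1.2 - M x.1.1), x.2)

theorem shEn_shE (M : A →ₗ[ZMod 3] B) (x : (A × B) × (Fin g → ZMod 3)) :
    shEn M (shE M x) = x := by
  refine Prod.ext (Prod.ext rfl ?_) rfl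
  show x.1.2 + M x.1.1 - M x.1.1 = x.1.2
  abel

theorem shE_shEn (M : A →ₗ[ZMod 3] B) (x : (A × B) × (Fin g → ZMod 3)) :
    shE M (shEn M x) = x := by
  refine Prod.ext (Prod.ext rfl ?_) rfl
  show x.1.2 - M x.1.1 + M x.1.1 = x.1.2
  abel

theorem shE_add (M N : A →ₗ[ZMod 3] B) (x : (A × B) × (Fin g → ZMod 3)) :
    shE (M + N) x = shE M (shE N x) := by
  refine Prod.ext (Prod.ext rfl ?_) rfl
  show x.1.2 + (M x.1.1 + N x.1.1) = x.1.2 + N x.1.1 + M x.1.1
  abel

/-- The shear as a bijection of the points. -/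
def shPe (M : A →ₗ[ZMod 3] B) :
    Pt (A × B) (Fin g → ZMod 3) ≃ Pt (A × B) (Fin g → ZMod 3) where
  toFun := shP M
  invFun a := (shEn M a.1, a.2)
  left_inv a := Prod.ext (shEn_shE M a.1) rfl
  right_inv a := Prod.ext (shE_shEn M a.1) rfl

theorem tp_sh (M : A →ₗ[ZMod 3] B) (f : A →ₗ[ZMod 3] A →ₗ[ZMod 3] (Fin g → ZMod 3))
    (a b : Pt (A × B) (Fin g → ZMod 3))
    (h : T (B.subtype ∘ₗ M) a.1.1.1 b.1.1.1 = f a.1.1.1 b.1.1.1) :
    tp (bet B 0) (shP M a) (shP M b) = shP M (tp (bet B f) a b) := by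
  refine pt_ext (Prod.ext rfl ?_) ?_ rfl
  · show -(a.1.1.2 + M a.1.1.1) - (b.1.1.2 + M b.1.1.1) =
      (-a.1.1.2 - b.1.1.2) + M (-a.1.1.1 - b.1.1.1)
    rw [map_sub, map_neg]
    abel
  · show -a.1.2 - b.1.2 + (a.2 - b.2) • ((0 : A →ₗ[ZMod 3] A →ₗ[ZMod 3] (Fin g → ZMod 3))
      a.1.1.1 b.1.1.1 + (evB ((a.1.1.2 + M a.1.1.1 : B) : Fin g → Dual (ZMod 3) A) b.1.1.1 -
      evB ((b.1.1.2 + M b.1.1.1 : B) : Fin g → Dual (ZMod 3) A) a.1.1.1)) =
      -a.1.2 - b.1.2 + (a.2 - b.2) • (f a.1.1.1 b.1.1.1 +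
      (evB (a.1.1.2 : Fin g → Dual (ZMod 3) A) b.1.1.1 -
      evB (b.1.1.2 : Fin g → Dual (ZMod 3) A) a.1.1.1))
    rw [← h]
    have h2 : T (B.subtype ∘ₗ M) a.1.1.1 b.1.1.1 =
      evB ((M a.1.1.1 : B) : Fin g → Dual (ZMod 3) A) b.1.1.1 -
      evB ((M b.1.1.1 : B) : Fin g → Dual (ZMod 3) A) a.1.1.1 := rfl
    rw [h2, Submodule.coe_add, Submodule.coe_add, map_add, map_add, LinearMap.add_apply,
      LinearMap.add_apply, LinearMap.zero_apply, LinearMap.zero_apply]
    congr 2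
    abel

theorem th_sh (M : A →ₗ[ZMod 3] B) (a b : Pt (A × B) (Fin g → ZMod 3)) :
    th (shP M a) (shP M b) = shP M (th a b) := by
  refine pt_ext (Prod.ext rfl ?_) rfl rfl
  show -(a.1.1.2 + M a.1.1.1) - (b.1.1.2 + M b.1.1.1) =
      (-a.1.1.2 - b.1.1.2) + M (-a.1.1.1 - b.1.1.1)
  rw [map_sub, map_neg]
  abel

variable [Fintype A] [Fintype B] [DecidableEq A] [DecidableEq B]

/-- The shear of the codes. -/
def csF (M : A →ₗ[ZMod 3] B) : Cd (A × B) (Fin g → ZMod 3) → Cd (A × B) (Fin g → ZMod 3)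
  | Sum.inl p => Sum.inl (shE M p.1, shE M p.2)
  | Sum.inr s => Sum.inr ⟨s.1.map (shPe M).toEmbedding, by
      obtain ⟨a, b, hab, h, hs⟩ := s.2
      refine ⟨shP M a, shP M b, fun h' => hab ((shPe M).injective h'), h, ?_⟩
      rw [hs, th_sh]
      simp only [Finset.map_insert, Finset.map_singleton]
      rfl⟩

/-- The inverse shear of the codes. -/
def csG (M : A →ₗ[ZMod 3] B) : Cd (A × B) (Fin g → ZMod 3) → Cd (A × B) (Fin g → ZMod 3)
  | Sum.inl p => Sum.inl (shEn M p.1, shEn M p.2)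
  | Sum.inr s => Sum.inr ⟨s.1.map (shPe M).symm.toEmbedding, by
      obtain ⟨a, b, hab, h, hs⟩ := s.2
      refine ⟨(shPe M).symm a, (shPe M).symm b, fun h' => hab ((shPe M).symm.injective h'), h, ?_⟩
      have h1 : th ((shPe M).symm a) ((shPe M).symm b) = (shPe M).symm (th a b) := by
        rw [Equiv.eq_symm_apply]
        have h2 := th_sh M ((shPe M).symm a) ((shPe M).symm b)
        have h3 : ∀ c, shP M ((shPe M).symm c) = c := fun c => (shPe M).apply_symm_apply c
        rw [h3, h3] at h2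
        exact h2.symm
      rw [hs, h1]
      simp only [Finset.map_insert, Finset.map_singleton]
      rfl⟩

/-- The shears as bijections of the codes. -/
def cs (M : A →ₗ[ZMod 3] B) :
    Cd (A × B) (Fin g → ZMod 3) ≃ Cd (A × B) (Fin g → ZMod 3) where
  toFun := csF M
  invFun := csG M
  left_inv c := by
    rcases c with p | s
    · exact congrArg Sum.inl (Prod.ext (shEn_shE M p.1) (shEn_shE M p.2))
    · refine congrArg Sum.inr (Subtype.ext ?_)
      show (s.1.map (shPe M).toEmbedding).map (shPe M).symm.toEmbedding = s.1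
      rw [Finset.map_map]
      ext a
      simp
  right_inv c := by
    rcases c with p | s
    · exact congrArg Sum.inl (Prod.ext (shE_shEn M p.1) (shE_shEn M p.2))
    · refine congrArg Sum.inr (Subtype.ext ?_)
      show (s.1.map (shPe M).symm.toEmbedding).map (shPe M).toEmbedding = s.1
      rw [Finset.map_map]
      ext a
      simp

theorem cs_add (M N : A →ₗ[ZMod 3] B) (c : Cd (A × B) (Fin g → ZMod 3)) :
    cs (M + N) c = cs M (cs N c) := by
  rcases c with p | s
  · exact congrArg Sum.inl (Prod.ext (shE_add M N p.1) (shE_add M N p.2))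
  · refine congrArg Sum.inr (Subtype.ext ?_)
    show s.1.map (shPe (M + N)).toEmbedding =
      (s.1.map (shPe N).toEmbedding).map (shPe M).toEmbedding
    rw [Finset.map_map]
    congr 1
    ext1 a
    exact Prod.ext (shE_add M N a.1) rfl

theorem cs_zero (c : Cd (A × B) (Fin g → ZMod 3)) : cs (0 : A →ₗ[ZMod 3] B) c = c := by
  have h0 : ∀ x : (A × B) × (Fin g → ZMod 3), shE (0 : A →ₗ[ZMod 3] B) x = x := fun x =>
    Prod.ext (Prod.ext rfl (add_zero _)) rfl
  rcases c with p | s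
  · exact congrArg Sum.inl (Prod.ext (h0 p.1) (h0 p.2))
  · refine congrArg Sum.inr (Subtype.ext ?_)
    show s.1.map (shPe (0 : A →ₗ[ZMod 3] B)).toEmbedding = s.1
    have h1 : (shPe (0 : A →ₗ[ZMod 3] B)).toEmbedding = Function.Embedding.refl _ := by
      ext1 a
      exact Prod.ext (h0 a.1) rfl
    rw [h1, Finset.map_refl]

/-- The level of a code. -/
def lvC : Cd (A × B) (Fin g → ZMod 3) → Submodule (ZMod 3) A
  | Sum.inl p => Submodule.span (ZMod 3) {p.1.1.1, p.2.1.1}
  | Sum.inr s => Submodule.span (ZMod 3)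
      ((fun a : Pt (A × B) (Fin g → ZMod 3) => a.1.1.1) '' (s.1 : Set _))

theorem lvC_cs (M : A →ₗ[ZMod 3] B) (c : Cd (A × B) (Fin g → ZMod 3)) :
    lvC (cs M c) = lvC c := by
  rcases c with p | s
  · rfl
  · show Submodule.span (ZMod 3) ((fun a : Pt (A × B) (Fin g → ZMod 3) => a.1.1.1) ''
      ((s.1.map (shPe M).toEmbedding : Finset _) : Set _)) = Submodule.span (ZMod 3)
      ((fun a : Pt (A × B) (Fin g → ZMod 3) => a.1.1.1) '' (s.1 : Set _))
    congr 1
    rw [Finset.coe_map, Set.image_image]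
    rfl

theorem cs_congr {M N : A →ₗ[ZMod 3] B} {c : Cd (A × B) (Fin g → ZMod 3)}
    (h : ∀ x ∈ lvC c, M x = N x) : cs M c = cs N c := by
  have h0 : ∀ x : (A × B) × (Fin g → ZMod 3), M x.1.1 = N x.1.1 → shE M x = shE N x := by
    intro x hx
    unfold shE
    rw [hx]
  rcases c with p | s
  · refine congrArg Sum.inl (Prod.ext (h0 p.1 (h _ ?_)) (h0 p.2 (h _ ?_)))
    · exact Submodule.subset_span (by simp)
    · exact Submodule.subset_span (by simp)
  · refine congrArg Sum.inr (Subtype.ext ?_)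
    show s.1.map (shPe M).toEmbedding = s.1.map (shPe N).toEmbedding
    rw [Finset.map_eq_image, Finset.map_eq_image]
    refine Finset.image_congr fun a ha => ?_
    exact Prod.ext (h0 a.1 (h _ (Submodule.subset_span ⟨a, ha, rfl⟩))) rfl

theorem size_lvC (c : Cd (A × B) (Fin g → ZMod 3)) : finrank (ZMod 3) (lvC c) ≤ 2 := by
  have h2 : ∀ x y : A, finrank (ZMod 3) (Submodule.span (ZMod 3) {x, y}) ≤ 2 := by
    intro x y
    have h6 := finrank_span_finset_le_card (R := ZMod 3) ({x, y} : Finset A)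
    have h7 : (({x, y} : Finset A) : Set A) = {x, y} := by simp
    unfold Set.finrank at h6
    rw [h7] at h6
    exact h6.trans Finset.card_le_two
  rcases c with p | s
  · exact h2 _ _
  · obtain ⟨s, a, b, hab, h, rfl⟩ := s
    have : FiniteDimensional (ZMod 3) A := Module.Finite.of_finite
    refine (Submodule.finrank_mono ?_).trans (h2 a.1.1.1 b.1.1.1)
    refine Submodule.span_le.2 ?_
    rintro _ ⟨e, he, rfl⟩
    have he' : e ∈ ({a, b, th a b} : Finset _) := he
    simp only [Finset.mem_insert, Finset.mem_singleton] at he'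
    rcases he' with rfl | rfl | rfl
    · exact Submodule.subset_span (by simp)
    · exact Submodule.subset_span (by simp)
    · show -a.1.1.1 - b.1.1.1 ∈ Submodule.span (ZMod 3) {a.1.1.1, b.1.1.1}
      exact Submodule.sub_mem _ (Submodule.neg_mem _ (Submodule.subset_span (by simp)))
        (Submodule.subset_span (by simp))

/-- The shear of a block, if the shear is a solution at the level of the block. -/
theorem toB_cs (M : A →ₗ[ZMod 3] B) (f : A →ₗ[ZMod 3] A →ₗ[ZMod 3] (Fin g → ZMod 3))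
    (c : Cd (A × B) (Fin g → ZMod 3))
    (h : ∀ x ∈ lvC c, ∀ y ∈ lvC c, T (B.subtype ∘ₗ M) x y = f x y) :
    toB (bet B 0) (cs M c) = (toB (bet B f) c).map (shPe M).toEmbedding := by
  rcases c with p | s
  · have h1 := tp_sh M f (p.1, 0) (p.2, 1) (h _ (Submodule.subset_span (by simp)) _
      (Submodule.subset_span (by simp)))
    show ({(shE M p.1, 0), (shE M p.2, 1), tp (bet B 0) (shE M p.1, 0) (shE M p.2, 1)} :
      Finset _) = ({(p.1, 0), (p.2, 1), tp (bet B f) (p.1, 0) (p.2, 1)} :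
      Finset _).map (shPe M).toEmbedding
    simp only [Finset.map_insert, Finset.map_singleton]
    have h2 : tp (bet B 0) (shE M p.1, 0) (shE M p.2, 1) =
      (shPe M).toEmbedding (tp (bet B f) (p.1, 0) (p.2, 1)) := h1
    rw [h2]
    rfl
  · rfl

end

end Pool.Agent.V11248.Sts
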