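import Pool.Agent.V11248.Sts.Layers
import Pool.Agent.W879.GW.NonIso

/-!
# The commutator map of the second group does not vanish on large subspaces
-/

set_option autoImplicit false
set_option linter.unusedSectionVars false

namespace Pool.Agent.V11248.Sts

open Module Pool.Agent.W879.GW

theorem prod_parts {A C : Type} [AddCommGroup A] [Module (ZMod 3) A] [AddCommGroup C]
    [Module (ZMod 3) C] [Finite A] [Finite C] (W₁ : AddSubgroup (A × C))
    (h : Nat.card (A × C) ≤ 3 * Nat.card W₁) :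
    ∃ (A' : Submodule (ZMod 3) A) (C' : Submodule (ZMod 3) C), (∀ x ∈ A', (x, 0) ∈ W₁) ∧
      (∀ c ∈ C', (0, c) ∈ W₁) ∧ finrank (ZMod 3) A ≤ finrank (ZMod 3) A' + 1 ∧
      finrank (ZMod 3) C ≤ finrank (ZMod 3) C' + 1 := by
  have : FiniteDimensional (ZMod 3) A := Module.Finite.of_finite
  have : FiniteDimensional (ZMod 3) C := Module.Finite.of_finite
  let W : Submodule (ZMod 3) (A × C) := AddSubgroup.toZModSubmodule 3 W₁
  have hWr : finrank (ZMod 3) A + finrank (ZMod 3) C ≤ finrank (ZMod 3) W + 1 := by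
    have hW2 : Nat.card (A × C) ≤ 3 * Nat.card W := h
    rw [Module.natCard_eq_pow_finrank (K := ZMod 3) (V := A × C),
      Module.natCard_eq_pow_finrank (K := ZMod 3) (V := W), Nat.card_zmod, ← pow_succ',
      Nat.pow_le_pow_iff_right (by norm_num), Module.finrank_prod] at hW2
    exact hW2
  let A' : Submodule (ZMod 3) A := (W ⊓ LinearMap.ker (LinearMap.snd (ZMod 3) A C)).map
    (LinearMap.fst (ZMod 3) A C)
  let B' : Submodule (ZMod 3) C := (W ⊓ LinearMap.ker (LinearMap.fst (ZMod 3) A C)).map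
    (LinearMap.snd (ZMod 3) A C)
  have hA' : ∀ x ∈ A', (x, (0 : C)) ∈ W₁ := by
    rintro _ ⟨⟨x, b⟩, ⟨h1, h2⟩, rfl⟩
    have h3 : b = 0 := h2
    rw [h3] at h1
    exact h1
  have hB' : ∀ c ∈ B', ((0 : A), c) ∈ W₁ := by
    rintro _ ⟨⟨x, b⟩, ⟨h1, h2⟩, rfl⟩
    have h3 : x = 0 := h2
    rw [h3] at h1
    exact h1
  have e1 := finrank_inf_ker (LinearMap.snd (ZMod 3) A C) W
  have e2 := finrank_inf_ker (LinearMap.fst (ZMod 3) A C) W
  have e3 : finrank (ZMod 3) (W.map (LinearMap.snd (ZMod 3) A C)) ≤ finrank (ZMod 3) C :=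
    Submodule.finrank_le _
  have e4 : finrank (ZMod 3) (W.map (LinearMap.fst (ZMod 3) A C)) ≤ finrank (ZMod 3) A :=
    Submodule.finrank_le _
  have e5 : finrank (ZMod 3) (W ⊓ LinearMap.ker (LinearMap.snd (ZMod 3) A C) :
      Submodule (ZMod 3) (A × C)) = finrank (ZMod 3) A' := by
    have h := finrank_inf_ker (LinearMap.fst (ZMod 3) A C)
      (W ⊓ LinearMap.ker (LinearMap.snd (ZMod 3) A C))
    have h2 : W ⊓ LinearMap.ker (LinearMap.snd (ZMod 3) A C) ⊓
        LinearMap.ker (LinearMap.fst (ZMod 3) A C) = ⊥ := by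
      rw [eq_bot_iff]
      rintro ⟨x, b⟩ ⟨⟨-, h3⟩, h4⟩
      have h5 : b = 0 := h3
      have h6 : x = 0 := h4
      rw [h5, h6]
      exact Submodule.zero_mem _
    rw [h2, finrank_bot, add_zero] at h
    exact h
  have e6 : finrank (ZMod 3) (W ⊓ LinearMap.ker (LinearMap.fst (ZMod 3) A C) :
      Submodule (ZMod 3) (A × C)) = finrank (ZMod 3) B' := by
    have h := finrank_inf_ker (LinearMap.snd (ZMod 3) A C)
      (W ⊓ LinearMap.ker (LinearMap.fst (ZMod 3) A C))
    have h2 : W ⊓ LinearMap.ker (LinearMap.fst (ZMod 3) A C) ⊓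
        LinearMap.ker (LinearMap.snd (ZMod 3) A C) = ⊥ := by
      rw [eq_bot_iff]
      rintro ⟨x, b⟩ ⟨⟨-, h3⟩, h4⟩
      have h5 : x = 0 := h3
      have h6 : b = 0 := h4
      rw [h5, h6]
      exact Submodule.zero_mem _
    rw [h2, finrank_bot, add_zero] at h
    exact h
  refine ⟨A', B', hA', hB', ?_, ?_⟩ <;> omega

section

variable {A : Type} [AddCommGroup A] [Module (ZMod 3) A] [Finite A]
  {g : ℕ} {q : Fin g → (Dual (ZMod 3) A →ₗ[ZMod 3] A)}
  {B : Submodule (ZMod 3) (Fin g → Dual (ZMod 3) A)}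

theorem spread_bet (halt : ∀ (i : Fin g) (φ : Dual (ZMod 3) A), φ (q i φ) = 0)
    {m : ℕ} (hE : Expands q m) (hg : 2 ≤ g)
    (ha : finrank (ZMod 3) A < (g - 1) * (2 * m)) (ha2 : 2 ≤ finrank (ZMod 3) A)
    (hB : B = LinearMap.ker (tot q)) :
    Spread (bet B (0 : A →ₗ[ZMod 3] A →ₗ[ZMod 3] (Fin g → ZMod 3))) := by
  intro W hW
  by_contra hcon
  push Not at hcon
  have : FiniteDimensional (ZMod 3) A := Module.Finite.of_finite
  have : Finite (Dual (ZMod 3) A) := Module.finite_of_finite (ZMod 3)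
  have : Finite (Fin g → Dual (ZMod 3) A) := inferInstance
  have : Finite B := inferInstance
  obtain ⟨A', B', hA', hB', e1, e2⟩ := prod_parts W hW
  have e7 : 1 ≤ finrank (ZMod 3) A' := by omega
  have hne : A' ≠ ⊥ := by
    intro h
    rw [h, finrank_bot] at e7
    omega
  have hdim := dim_ineq halt hE hg ha A' hne
  rw [← hB] at hdim
  have h8 : (B'.map B.subtype) ≤ (B ⊓ CW A' : Submodule (ZMod 3) (Fin g → Dual (ZMod 3) A)) := by
    rintro _ ⟨c, hc, rfl⟩
    refine ⟨c.2, fun i x hx => ?_⟩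
    have h9 := hcon _ (hB' c hc) _ (hA' x hx)
    rw [bet_apply] at h9
    have h10 := congrFun h9 i
    have h11 : (0 : ZMod 3) +
      ((c : Fin g → Dual (ZMod 3) A) i x - (0 : Dual (ZMod 3) A) (0 : A)) = 0 := h10
    have h12 : (0 : Dual (ZMod 3) A) (0 : A) = 0 := rfl
    rw [h12, sub_zero, zero_add] at h11
    exact h11
  have h9 := Submodule.finrank_mono h8
  have h10 : finrank (ZMod 3) (B'.map B.subtype) = finrank (ZMod 3) B' :=
    Submodule.finrank_map_subtype_eq B B'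
  omega

end

end Pool.Agent.V11248.Sts
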