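import Pool.Agent.V11248.Sts.Shear
import Pool.Agent.V11248.Sts.Spread
import Pool.Agent.V11248.Sts.Recon
import Pool.Agent.V11248.Sts.ActWL

/-!
# The block graphs of the two Hall triple systems
-/

set_option autoImplicit false
set_option linter.unusedSectionVars false

namespace Pool.Agent.V11248.Sts

open Module Pool.Agent.W879.GW Pool.Agent.TH658.Sos Finset

section

variable {A : Type} [AddCommGroup A] [Module (ZMod 3) A]
  {g : ℕ} {q : Fin g → (Dual (ZMod 3) A →ₗ[ZMod 3] A)}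
  {B : Submodule (ZMod 3) (Fin g → Dual (ZMod 3) A)}
  [Fintype A] [Fintype B] [DecidableEq A] [DecidableEq B]

theorem bet_alt {f : A →ₗ[ZMod 3] A →ₗ[ZMod 3] (Fin g → ZMod 3)}
    (hf : ∀ x, f x x = 0) (v : A × B) : (bet B f).fn v v = 0 := by
  rw [bet_apply, sub_self, add_zero]
  exact hf v.1

theorem T_alt (M : A →ₗ[ZMod 3] (Fin g → Dual (ZMod 3) A)) (x : A) : T M x x = 0 := by
  funext i
  show T M x x i = 0
  rw [T_apply, sub_self]

/-- The bijections of the blocks. -/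
noncomputable def stsAct [FiniteDimensional (ZMod 3) A]
    (halt : ∀ (i : Fin g) (φ : Dual (ZMod 3) A), φ (q i φ) = 0) {K : ℕ}
    (hK : 1 ≤ K) (hE : Expands q (4 * K)) (hB : B = LinearMap.ker (tot q))
    (f : A →ₗ[ZMod 3] A →ₗ[ZMod 3] (Fin g → ZMod 3))
    (φ₀ : Dual (ZMod 3) A) (c₀ : Fin g → Dual (ZMod 3) A) (hf : f = T (φ₀.smulRight c₀))
    (hbf : ∀ v : A × B, (bet B f).fn v v = 0)
    (hb0 : ∀ v : A × B, (bet B (0 : A →ₗ[ZMod 3] A →ₗ[ZMod 3] (Fin g → ZMod 3))).fn v v = 0) :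
    Act (grSys halt hE B hB f φ₀ c₀ hf) (blockGraph (blocks (tp (bet B f))))
      (blockGraph (blocks (tp (bet B (0 : A →ₗ[ZMod 3] A →ₗ[ZMod 3] (Fin g → ZMod 3)))))) where
  b M := (eB hbf).symm.trans ((cs M).trans (eB hb0))
  lv u := lvC ((eB hbf).symm u)
  lv' u := lvC ((eB hb0).symm u)
  c := 2
  inv M n u hn := by
    show eB hb0 (cs (M + n) ((eB hbf).symm u)) = eB hb0 (cs M ((eB hbf).symm u))
    congr 1
    refine cs_congr fun x hx => ?_
    refine om_eq fun i y => ?_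
    rw [map_add, hn x hx, add_zero]
  lev M u := by
    show lvC ((eB hb0).symm (eB hb0 (cs M ((eB hbf).symm u)))) = _
    rw [Equiv.symm_apply_apply, lvC_cs]
  size u := size_lvC _
  iso u u' M hM := by
    have key : ∀ w : blocks (tp (bet B f)), (w = u ∨ w = u') →
        (eB hb0 (cs M ((eB hbf).symm w))).1 = w.1.map (shPe M).toEmbedding := by
      intro w hw
      have hle : lvC ((eB hbf).symm w) ≤ lvC ((eB hbf).symm u) ⊔ lvC ((eB hbf).symm u') := by
        rcases hw with rfl | rfl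
        · exact le_sup_left
        · exact le_sup_right
      rw [eB_val, toB_cs M f]
      · rw [← eB_val hbf, Equiv.apply_symm_apply]
      · intro x hx y hy
        exact eq_on hK f _ _ hM (hle hx) (hle hy)
    have h1 := key u (Or.inl rfl)
    have h2 := key u' (Or.inr rfl)
    show (u ≠ u' ∧ ∃ x, x ∈ u.1 ∧ x ∈ u'.1) ↔
      (eB hb0 (cs M ((eB hbf).symm u)) ≠ eB hb0 (cs M ((eB hbf).symm u')) ∧
        ∃ x, x ∈ (eB hb0 (cs M ((eB hbf).symm u))).1 ∧
          x ∈ (eB hb0 (cs M ((eB hbf).symm u'))).1)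
    rw [h1, h2]
    refine and_congr ?_ ?_
    · refine not_congr ⟨fun h => by rw [h], fun h => ?_⟩
      exact (eB hbf).symm.injective ((cs M).injective ((eB hb0).injective h))
    · constructor
      · rintro ⟨x, hx, hx'⟩
        exact ⟨shPe M x, Finset.mem_map_of_mem _ hx, Finset.mem_map_of_mem _ hx'⟩
      · rintro ⟨y, hy, hy'⟩
        obtain ⟨x, hx, rfl⟩ := Finset.mem_map.1 hy
        obtain ⟨x', hx', hxx⟩ := Finset.mem_map.1 hy'
        have h3 : x' = x := (shPe M).injective hxx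
        exact ⟨x, hx, h3 ▸ hx'⟩

theorem stsAct_torsor [FiniteDimensional (ZMod 3) A]
    (halt : ∀ (i : Fin g) (φ : Dual (ZMod 3) A), φ (q i φ) = 0) {K : ℕ}
    (hK : 1 ≤ K) (hE : Expands q (4 * K)) (hB : B = LinearMap.ker (tot q))
    (f : A →ₗ[ZMod 3] A →ₗ[ZMod 3] (Fin g → ZMod 3))
    (φ₀ : Dual (ZMod 3) A) (c₀ : Fin g → Dual (ZMod 3) A) (hf : f = T (φ₀.smulRight c₀))
    (hbf : ∀ v : A × B, (bet B f).fn v v = 0)
    (hb0 : ∀ v : A × B, (bet B (0 : A →ₗ[ZMod 3] A →ₗ[ZMod 3] (Fin g → ZMod 3))).fn v v = 0) :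
    (stsAct halt hK hE hB f φ₀ c₀ hf hbf hb0).Torsor := by
  intro M h u
  have h0 : ∀ c : Cd (A × B) (Fin g → ZMod 3), (cs (0 : A →ₗ[ZMod 3] B)).symm c = c := by
    intro c
    rw [Equiv.symm_apply_eq, cs_zero]
  show eB hb0 (cs (M + h) ((eB hbf).symm u)) = eB hb0 (cs M ((eB hbf).symm
    (eB hbf ((cs (0 : A →ₗ[ZMod 3] B)).symm ((eB hb0).symm
      (eB hb0 (cs h ((eB hbf).symm u))))))))
  rw [Equiv.symm_apply_apply, Equiv.symm_apply_apply, h0]
  congr 1
  exact cs_add M h _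

end

/-- What is proved of the pair. -/
def PairOK (K : ℕ) : Prop :=
    ∃ (P : Type) (_ : Fintype P) (S T : Finset (Finset P)) (r : ℕ),
      r ≤ 168 * K + 7 ∧ Fintype.card P = 3 ^ r ∧ IsSteiner S ∧ IsHall S ∧ IsSteiner T ∧
      IsHall T ∧ IsEmpty (blockGraph S ≃g blockGraph T) ∧
      ∃ (X L : Type) (_ : AddCommGroup X) (_ : SemilatticeSup L) (_ : OrderBot L)
        (_ : Fintype X) (Y : Sys X L) (act : Act Y (blockGraph S) (blockGraph T)),
        act.Torsor ∧ act.c = 2 ∧ Y.K = K ∧ ∃ m, Fintype.card X = 3 ^ m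

section

variable {A : Type} [AddCommGroup A] [Module (ZMod 3) A]
  {q : Fin 6 → (Dual (ZMod 3) A →ₗ[ZMod 3] A)}
  {B : Submodule (ZMod 3) (Fin 6 → Dual (ZMod 3) A)}
  [Fintype A] [Fintype B] [DecidableEq A] [DecidableEq B]

theorem pair_aux [FiniteDimensional (ZMod 3) A]
    (halt : ∀ (i : Fin 6) (φ : Dual (ZMod 3) A), φ (q i φ) = 0) {K : ℕ}
    (hK : 1 ≤ K) (hE : Expands q (4 * K)) (hB : B = LinearMap.ker (tot q))
    (hfr : finrank (ZMod 3) A = 6 * (4 * K))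
    (φ₀ : Dual (ZMod 3) A) (c₀ : Fin 6 → Dual (ZMod 3) A) (h0 : φ₀ (tot q c₀) ≠ 0) :
    PairOK K := by
  have hcB : Fintype.card B = 3 ^ finrank (ZMod 3) B := by
    rw [← Nat.card_eq_fintype_card, Module.natCard_eq_pow_finrank (K := ZMod 3), Nat.card_zmod]
  have hcA : Fintype.card A = 3 ^ (6 * (4 * K)) := by
    rw [← Nat.card_eq_fintype_card, Module.natCard_eq_pow_finrank (K := ZMod 3), Nat.card_zmod,
      hfr]
  have hfrB : finrank (ZMod 3) B ≤ 6 * (6 * (4 * K)) := by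
    refine (Submodule.finrank_le _).trans (le_of_eq ?_)
    rw [Module.finrank_pi_fintype]
    simp only [Subspace.dual_finrank_eq, Finset.sum_const, Finset.card_univ, Fintype.card_fin,
      smul_eq_mul]
    exact congrArg (fun x => 6 * x) hfr
  have hiso : IsEmpty (GE (bet B (T (φ₀.smulRight c₀))) ≃* GE (bet B 0)) :=
    not_iso (by norm_num) halt hE (by omega) (by
      rw [hfr]
      omega) hB φ₀ c₀ h0 rfl
  have hbf : ∀ v : A × B, (bet B (T (φ₀.smulRight c₀))).fn v v = 0 := bet_alt (T_alt _)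
  have hb0 : ∀ v : A × B,
      (bet B (0 : A →ₗ[ZMod 3] A →ₗ[ZMod 3] (Fin 6 → ZMod 3))).fn v v = 0 := bet_alt fun _ => rfl
  have hqf := quasi_tp (Γ := Fin 6 → ZMod 3) hbf
  have hq0 := quasi_tp (Γ := Fin 6 → ZMod 3) hb0
  have hcard : Fintype.card (Pt (A × B) (Fin 6 → ZMod 3)) =
      3 ^ (6 * (4 * K) + finrank (ZMod 3) B + 6 + 1) := by
    rw [Fintype.card_prod, Fintype.card_prod, Fintype.card_prod, hcB, hcA, Fintype.card_fun,
      ZMod.card, Fintype.card_fin, ← pow_add, ← pow_add, ← pow_succ]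
  have h16 : 16 ≤ Fintype.card (Pt (A × B) (Fin 6 → ZMod 3)) := by
    rw [hcard]
    calc 16 ≤ 3 ^ 7 := by norm_num
      _ ≤ _ := Nat.pow_le_pow_right (by norm_num) (by omega)
  have hfinM : Finite (A →ₗ[ZMod 3] B) := Module.finite_of_finite (ZMod 3)
  let iX : Fintype (A →ₗ[ZMod 3] B) := Fintype.ofFinite _
  have hcX : ∃ m, Fintype.card (A →ₗ[ZMod 3] B) = 3 ^ m := by
    refine ⟨finrank (ZMod 3) (A →ₗ[ZMod 3] B), ?_⟩
    rw [← Nat.card_eq_fintype_card, Module.natCard_eq_pow_finrank (K := ZMod 3), Nat.card_zmod]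
  refine ⟨Pt (A × B) (Fin 6 → ZMod 3), inferInstance,
    blocks (tp (bet B (T (φ₀.smulRight c₀)))),
    blocks (tp (bet B 0)), 6 * (4 * K) + finrank (ZMod 3) B + 6 + 1, by omega, hcard,
    hqf.isSteiner, hqf.isHall (tp_dist hbf), hq0.isSteiner, hq0.isHall (tp_dist hb0), ?_,
    A →ₗ[ZMod 3] B, Submodule (ZMod 3) A, inferInstance, inferInstance, inferInstance, iX,
    grSys halt hE B hB _ φ₀ c₀ rfl, stsAct halt hK hE hB _ φ₀ c₀ rfl hbf hb0,
    stsAct_torsor halt hK hE hB _ φ₀ c₀ rfl hbf hb0, rfl, rfl, hcX⟩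
  refine ⟨fun Φ => ?_⟩
  obtain ⟨φ, hφ⟩ := exists_iso hqf hq0 Φ h16 h16
  have hsp : Spread (bet B (0 : A →ₗ[ZMod 3] A →ₗ[ZMod 3] (Fin 6 → ZMod 3))) :=
    spread_bet halt hE (by omega) (by
      rw [hfr]
      omega) (by
      rw [hfr]
      omega) hB
  obtain ⟨θ⟩ := group_iso hbf hb0 hsp φ hφ
  exact hiso.false θ

end

/-- The pair of Hall triple systems. -/
theorem exists_pair (K : ℕ) (hK : 1 ≤ K) : PairOK K := by
  classical
  obtain ⟨q, halt, hE⟩ := exists_expander (F := ZMod 3) (4 * K)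
  have hfr : finrank (ZMod 3) (Fin (6 * (4 * K)) → ZMod 3) = 6 * (4 * K) :=
    Module.finrank_fin_fun _
  obtain ⟨φ₀, c₀, h0⟩ := exists_target hE (by omega) (by
    rw [hfr]
    omega)
  have hfin : Finite (Dual (ZMod 3) (Fin (6 * (4 * K)) → ZMod 3)) :=
    Module.finite_of_finite (ZMod 3)
  have hfin2 : Finite (Fin 6 → Dual (ZMod 3) (Fin (6 * (4 * K)) → ZMod 3)) := inferInstance
  have hfinB : Finite (LinearMap.ker (tot q)) := inferInstance
  have : Fintype (LinearMap.ker (tot q)) := Fintype.ofFinite _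
  exact pair_aux halt hK hE rfl hfr φ₀ c₀ h0

end Pool.Agent.V11248.Sts
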